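import Pool.Agent.Helper241_Spread.Process

set_option autoImplicit false

namespace Pool.Agent.Results.MP_5251ca_al.UniformSpread

open Pool.Agent.Helper241Spread
open scoped ENNReal

/-- A group fails to be supramenable if and only if it carries a Markov process (with an arbitrary
set `V` of states and a position map `pos`) that moves by left multiplication with elements of a
finite set `K` and whose positions spread exponentially fast, uniformly over all starting states:
`P (pos X_n = y | X_0 = u) ≤ C * θ ^ n` for all `n`, `u`, `y`, with `θ < 1`. -/
theorem result (G : Type*) [Group G] :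
    ¬ Supramenable G ↔
      ∃ (V : Type) (pos : V → G) (step : V → PMF V) (K : Finset G) (C θ : NNReal),
        Nonempty V ∧ θ < 1 ∧
        (∀ u, ∀ v ∈ (step u).support, ∃ k ∈ K, pos v = k * pos u) ∧
        ∀ (n : ℕ) (u : V) (y : G), ((law step n u).map pos) y ≤ C * (θ : ℝ≥0∞) ^ n := by
  constructor
  · intro h
    obtain ⟨pos, step, K, C, θ, h1, h2, h3⟩ := exists_process h
    exact ⟨List Bool, pos, step, K, C, θ, ⟨[]⟩, h1, h2, h3⟩
  · rintro ⟨V, pos, step, K, C, θ, hV, hθ, hK, hs⟩
    exact not_supramenable_of_spread pos step K hK C θ hθ hs

end Pool.Agent.Results.MP_5251ca_al.UniformSpread
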